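import Pool.Agent.H497.GP.Show

/-!
# Exact averages of Gan-Gross-Prasad periods for totally definite isometry groups

`F` totally real, `E = F` or `E` a CM extension of `F`, `V = E^n` with a symmetric (hermitian) form which is definite at all
infinite places, `e ∈ V` nonzero, `W = e^⊥`. Automorphic forms on `G(V)` are functions on the finite adelic group with values in
a unitary representation of `G(V)(F)` (all infinite types, since `G(V)` is compact at infinity). In the stable range the Hecke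
eigenvalues of all forms on `G(V)` of level `K`, weighted by the squares of their periods against any fixed form `φ'` on `G(W)`,
have exactly the mean value given by the restriction of the Hecke function to `G(W)`.
-/

set_option autoImplicit false

open Pool.Agent.H497.GP

namespace Pool.Agent.Results.MP_41920c_nt.ExactPeriodAverages

theorem result (P : DefPair) (K : Subgroup P.G) (hK : P.Bounded K) :
    (∀ D N : ℕ, 0 < D → 0 < N → D.Coprime N → P.Integral → P.Small D (N ^ 2) →
      ∀ κ : P.G → ℂ, P.Level D N κ → P.Range D (N ^ 2) κ) ∧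
    (∀ g : P.G, {γ : P.Γ | g⁻¹ * P.j γ * g ∈ K}.Finite) ∧
    ∀ (S : Set P.G) (S' : Set P.H), Reps P.j K S → Reps P.jH (P.KW K) S' →
    ∀ (U : Type) [NormedAddCommGroup U] [InnerProductSpace ℂ U] (ρ : P.Γ →* (U ≃ₗᵢ[ℂ] U))
      (ι : Type) (φ : ι → P.G → U), IsBasis P.j K S ρ φ →
    ∀ φ' : P.H → U, IsForm P.jH (P.KW K) S' (ρ.comp P.Δ.subtype) φ' →
    (∀ κ : P.G → ℂ, IsHecke K κ → ∀ D M : ℕ, P.Range D M κ →
      HasSum (fun i => P.per K S' φ' (hecke K κ (φ i)) * starRingEnd ℂ (P.per K S' φ' (φ i)))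
        (P.ipW K S' φ' (P.heckeW K κ φ')) ∧
      ∀ l : ι → ℂ, (∀ i, hecke K κ (φ i) = l i • φ i) →
        HasSum (fun i => l i * ((‖P.per K S' φ' (φ i)‖ ^ 2 : ℝ) : ℂ)) (P.ipW K S' φ' (P.heckeW K κ φ'))) ∧
    (∀ D M : ℕ, P.Range D M (fun g => Set.indicator (K : Set P.G) 1 g) →
      HasSum (fun i => ((‖P.per K S' φ' (φ i)‖ ^ 2 : ℝ) : ℂ)) (P.ipW K S' φ' φ') ∧
      (φ' ≠ 0 → ∃ i, P.per K S' φ' (φ i) ≠ 0)) :=
  show_main P K hK

end Pool.Agent.Results.MP_41920c_nt.ExactPeriodAverages
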